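import Mathlib
import Pool.Agent.Helper76x.HamFinal

/-!
# Bootstrap percolation on Hamming tori: no gap in dimension four for threshold three

For threshold three on the four dimensional Hamming torus the critical value for an open plane
and the critical value for the whole torus differ by a factor of at most four.
-/

set_option autoImplicit false

open Finset MeasureTheory ProbabilityTheory

namespace Pool.Agent.Results.MP_af82af_pr.NoGapDimFour

/-- One step of bootstrap percolation with threshold `θ` on the Hamming torus of dimension `d`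
and side `n`: a vertex is open afterwards when it was open or when at least `θ` vertices at
Hamming distance one from it were open. -/
def step {n d : ℕ} (θ : ℕ) (ω : (Fin d → Fin n) → Bool) : (Fin d → Fin n) → Bool :=
  fun v => ω v || decide (θ ≤ (univ.filter fun w => hammingDist v w = 1 ∧ ω w = true).card)

/-- Some `i`-dimensional subgraph is open in the final configuration started from `ω`. -/
def SubgraphOpen {n d : ℕ} (θ i : ℕ) (ω : (Fin d → Fin n) → Bool) : Prop :=
  ∃ J : Finset (Fin d), J.card = i ∧ ∃ a : Fin d → Fin n,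
    ∀ x : Fin d → Fin n, (∀ k, k ∉ J → x k = a k) → ∃ j : ℕ, (step θ)^[j] ω x = true

/-- The law of independent Bernoulli variables with parameter `p`, one for each vertex. -/
noncomputable def law (n d : ℕ) (p : ℝ) : Measure ((Fin d → Fin n) → Bool) :=
  Measure.pi fun _ =>
    ENNReal.ofReal p • Measure.dirac true + ENNReal.ofReal (1 - p) • Measure.dirac false

/-- `p` is a critical value `p_c(i, d)`: the probability that some `i`-dimensional subgraph is
finally open equals one half. -/
def IsCritical (n d θ i : ℕ) (p : ℝ) : Prop :=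
  0 ≤ p ∧ p ≤ 1 ∧ law n d p {ω | SubgraphOpen θ i ω} = 1 / 2

lemma isCritical_iff {n d θ i : ℕ} {p : ℝ} :
    IsCritical n d θ i p ↔ Pool.Agent.R958.Ham.IsCritical n d θ i p := Iff.rfl

/-- For dimension `4` and threshold `3`: for all large `n` the critical values `p_c(2, 4)` and
`p_c(4, 4)` exist, are unique, and satisfy `p_c(2, 4) ≤ p_c(4, 4) ≤ 4 p_c(2, 4)`; consequently
`log_n p_c(4, 4) - log_n p_c(2, 4)` tends to zero. -/
theorem result :
    (∀ᶠ n : ℕ in Filter.atTop,
      (∃! p, IsCritical n 4 3 2 p) ∧ (∃! q, IsCritical n 4 3 4 q) ∧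
      ∀ p q, IsCritical n 4 3 2 p → IsCritical n 4 3 4 q → 0 < p ∧ p ≤ q ∧ q ≤ 4 * p) ∧
    ∀ ε : ℝ, 0 < ε → ∀ᶠ n : ℕ in Filter.atTop, ∀ p q, IsCritical n 4 3 2 p →
      IsCritical n 4 3 4 q → 0 ≤ Real.logb n q - Real.logb n p ∧
        Real.logb n q - Real.logb n p < ε := by
  have h1 := Pool.Agent.Helper76x.Ham.crit_compare
  constructor
  · filter_upwards [h1, Filter.eventually_ge_atTop 4] with n hn h4
    refine ⟨?_, ?_, fun p q hp hq => hn p q hp hq⟩
    · obtain ⟨p, hp⟩ := Pool.Agent.R958.Ham.exists_critical (n := n) (d := 4) (θ := 3) (i := 2)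
        (by norm_num) (by norm_num) (by omega)
      refine ⟨p, hp, fun p' hp' => ?_⟩
      exact Pool.Agent.Helper76x.Ham.crit_unique (by omega) (by norm_num) hp' hp
    · obtain ⟨p, hp⟩ := Pool.Agent.R958.Ham.exists_critical (n := n) (d := 4) (θ := 3) (i := 4)
        (by norm_num) (by norm_num) (by omega)
      refine ⟨p, hp, fun p' hp' => ?_⟩
      exact Pool.Agent.Helper76x.Ham.crit_unique (by omega) (by norm_num) hp' hp
  · intro ε hε
    have hlim : Filter.Tendsto (fun n : ℕ => Real.log 4 / Real.log n) Filter.atTop (nhds 0) := by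
      apply Filter.Tendsto.div_atTop tendsto_const_nhds
      exact Real.tendsto_log_atTop.comp tendsto_natCast_atTop_atTop
    filter_upwards [h1, hlim.eventually (gt_mem_nhds hε), Filter.eventually_ge_atTop 4]
      with n hn hl h4 p q hp hq
    obtain ⟨hp0, hpq, hqp⟩ := hn p q hp hq
    have hnr : (1:ℝ) < n := by
      have : (4:ℝ) ≤ n := by exact_mod_cast h4
      linarith
    have hlog : 0 < Real.log n := Real.log_pos hnr
    rw [Real.logb, Real.logb, ← sub_div]
    have e1 : Real.log p ≤ Real.log q := Real.log_le_log hp0 hpq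
    have e2 : Real.log q ≤ Real.log 4 + Real.log p := by
      have := Real.log_le_log (hp0.trans_le hpq) hqp
      rwa [Real.log_mul (by norm_num) hp0.ne'] at this
    constructor
    · exact div_nonneg (by linarith) hlog.le
    · refine lt_of_le_of_lt ?_ hl
      apply div_le_div_of_nonneg_right _ hlog.le
      linarith

end Pool.Agent.Results.MP_af82af_pr.NoGapDimFour
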